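import Pool.Agent.H24.UG.T9
import Pool.Agent.H59.MR.Dens

/-!
UNIFORM LOCAL GAP (`MP_c59857_nt`), row USY: the measure on the symbolic space.
-/

set_option autoImplicit false

open MeasureTheory Filter Topology Finset
open scoped Nat

namespace Pool.Agent.H41.UG

open Pool.Agent.H24.UG
open Pool.Agent.H24.MR (lam FinAddInv)
open Pool.Agent.H24.T2 (Pset rel MRprop)
open Pool.Agent.H59.MR (fai_mono fai_union_le fai_empty)

lemma usy_exists_le {μ : Set ℕ → ℝ} (h : FinAddInv μ) {ι : Type*} (s : Finset ι)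
    (A : ι → Set ℕ) : μ {n | ∃ i ∈ s, n ∈ A i} ≤ ∑ i ∈ s, μ (A i) := by
  classical
  induction s using Finset.induction_on with
  | empty => simp [fai_empty h]
  | insert a s ha ih =>
    rw [Finset.sum_insert ha]
    have h1 : {n | ∃ i ∈ insert a s, n ∈ A i} = A a ∪ {n | ∃ i ∈ s, n ∈ A i} := by
      ext n
      simp
    rw [h1]
    exact (fai_union_le h _ _).trans (add_le_add_right ih _)

/-- the Matomaki-Radziwill property for all residue classes at once -/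
lemma usy_mr {μ : Set ℕ → ℝ} (hν : FinAddInv μ) (hMR : MRprop μ) (W : ℕ) (ε : ℝ) (hW : 0 < W)
    (hε : 0 < ε) : ∃ h₀ : ℕ, ∀ h, h₀ ≤ h →
      μ {z | ε * h ≤ |∑ y ∈ Finset.range h, lam (z + W * y)|} ≤ ε := by
  have hWr : (0 : ℝ) < W := by exact_mod_cast hW
  choose h0 hh0 using fun b => hMR W b (ε / W) hW (div_pos hε hWr)
  refine ⟨∑ b ∈ range W, h0 b, fun h hh => ?_⟩
  have h1 : {z | ε * h ≤ |∑ y ∈ Finset.range h, lam (z + W * y)|} ⊆
      {z | ∃ b ∈ range W, z ∈ {z | z ≡ b [MOD W] ∧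
        ε / W * h ≤ |∑ y ∈ Finset.range h, lam (z + W * y)|}} := by
    intro z hz
    refine ⟨z % W, mem_range.2 (Nat.mod_lt _ hW), (Nat.mod_modEq z W).symm, le_trans ?_ hz⟩
    refine mul_le_mul_of_nonneg_right ?_ (Nat.cast_nonneg h)
    rw [div_le_iff₀ hWr]
    have : (1 : ℝ) ≤ W := by exact_mod_cast hW
    nlinarith
  refine (fai_mono hν h1).trans ((usy_exists_le hν _ _).trans ?_)
  calc ∑ b ∈ range W, μ {z | z ≡ b [MOD W] ∧
        ε / W * h ≤ |∑ y ∈ Finset.range h, lam (z + W * y)|}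
      ≤ ∑ b ∈ range W, ε / W := by
        refine Finset.sum_le_sum fun b hb => hh0 b h (le_trans ?_ hh)
        exact Finset.single_le_sum (f := h0) (fun _ _ => Nat.zero_le _) hb
    _ = ε := by
        rw [Finset.sum_const, card_range, nsmul_eq_mul]
        field_simp

/-- the label of a sign -/
def lb3 (z : ℤ) : Fin 3 := if z = 0 then 0 else if z = 1 then 1 else 2

lemma lb3_sg {z : ℤ} (h : z = 0 ∨ z = 1 ∨ z = -1) : sg3 (lb3 z) = (z : ℝ) := by
  rcases h with h | h | h <;> subst h <;> simp [lb3, sg3]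

lemma lb3_zero {z : ℤ} (h : z = 0 ∨ z = 1 ∨ z = -1) : lb3 z = 0 ↔ z = 0 := by
  rcases h with h | h | h <;> subst h <;> simp [lb3]

lemma lb3_inj {z w : ℤ} (hz : z = 0 ∨ z = 1 ∨ z = -1) (hw : w = 0 ∨ w = 1 ∨ w = -1) :
    lb3 z = lb3 w ↔ z = w := by
  rcases hz with h | h | h <;> rcases hw with h' | h' | h' <;> subst h h' <;> simp [lb3]

/-- **Row USY.** -/
theorem pf_USY (hn : T_UNC) (hu : T_UNU) (hp : T_UPT) : T_USY := by
  classical
  intro k δ η Q c _ β μ σ hδ hL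
  choose m fl hm1 hm2 hm3 hm4 hm5 using fun w i => hn k δ η Q c β μ σ hL (δ / 4) w i (by positivity)
  have hν : FinAddInv μ := hL.fa
  let l : ℕ → Lb := fun y => (fun wi => fl wi.1 wi.2 y, fun p => lb3 (σ p y))
  let pt : ℕ → Om Q := ptO Q l
  obtain ⟨P, hPp, hPi, hPc⟩ := hu (Om Q) (sh Q) μ pt hν (hp Q l).1
  obtain ⟨-, q2, q3, q4, q5, q6, q7, q8⟩ := hp Q l
  have hz : ∀ C : Set (Om Q), IsClopen C → μ {n | pt n ∈ C} = 0 → P C = 0 := by
    intro C hC h0
    have h1 := hPc C hC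
    rw [h0] at h1
    exact (measureReal_eq_zero_iff (measure_ne_top P C)).1 h1
  have e1 : ∀ n, (pt n).2.2 0 = l n := fun n => (q2 n).2.1
  have e2 : ∀ n, (pt n).2.2 1 = l (n + 1) := fun n => (q2 n).2.2
  have e3 : ∀ n, (pt n).2.1 = (n : ZMod Q) := fun n => (q2 n).1
  refine ⟨m, P, ⟨hPp, hPi, fun w i => ⟨hm1 w i, hm2 w i⟩, fun w i => ?_, fun p hpp hpQ => ?_,
    fun w i => ?_, fun p hpp hpQ => ?_, fun w i => ?_, fun W hW ε hε => ?_⟩⟩
  · -- flags
    refine hz _ (q5 w i).2 ?_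
    rw [← hm4 w i]
    congr 1
  · -- signs
    refine hz _ (q6 p).2 ?_
    rw [← hL.cst p hpp hpQ]
    congr 1
    ext n
    change ((pt n).2.2 0).2 p ≠ ((pt n).2.2 1).2 p ↔ _
    rw [e1, e2]
    change lb3 (σ p n) ≠ lb3 (σ p (n + 1)) ↔ σ p n ≠ σ p (n + 1)
    rw [Ne, lb3_inj (hL.val p n) (hL.val p (n + 1))]
  · -- good
    have h1 : P.real (FL Q w i) = μ {n | fl w i n = true} := by
      rw [hPc _ (q5 w i).1]
      congr 1
    have h2 := hν.add {n | fl w i n = true} {n | fl w i n = false} (by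
      rw [Set.disjoint_left]
      intro n h3 h4
      simp only [Set.mem_ofPred_eq] at h3 h4
      rw [h3] at h4
      exact absurd h4 (by decide))
    have h3 : {n | fl w i n = true} ∪ {n | fl w i n = false} = Set.univ := by
      ext n
      simp only [Set.mem_union, Set.mem_ofPred_eq, Set.mem_univ, iff_true]
      cases fl w i n <;> simp
    rw [h3, hν.univ] at h2
    rw [h1]
    linarith [hm3 w i]
  · -- dense
    have h1 : P.real (SN Q p) = μ {y | σ p y ≠ 0} := by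
      rw [hPc _ (q6 p).1]
      congr 1
      ext n
      change ((pt n).2.2 0).2 p ≠ 0 ↔ _
      rw [e1]
      change lb3 (σ p n) ≠ 0 ↔ σ p n ≠ 0
      rw [Ne, lb3_zero (hL.val p n)]
    rw [h1]
    exact hL.dns p hpp hpQ
  · -- relation
    refine le_trans (le_of_eq (Finset.sum_congr rfl fun p _ => ?_)) (hm5 w i)
    rw [hPc _ (q7 k β (c : ZMod Q) p w i)]
    congr 1
    ext n
    change (((pt n).2.2 0).1 (w, i) = true ∧ (((pt n).2.2 0).2 p ≠ 0 ∧ (pt n).2.1 = (c : ZMod Q) ∧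
      pt n ∈ RB Q β p (sg3 (((pt n).2.2 0).2 p)))) ↔ _
    rw [e1, e3]
    change (fl w i n = true ∧ (lb3 (σ p n) ≠ 0 ∧ (n : ZMod Q) = (c : ZMod Q) ∧
      ptO Q l n ∈ RB Q β p (sg3 (lb3 (σ p n))))) ↔
      (fl w i n = true ∧ σ p n ≠ 0 ∧ n ≡ c [MOD Q] ∧ rel β lam p n ≠ (σ p n : ℝ))
    rw [q4, lb3_sg (hL.val p n), Ne, lb3_zero (hL.val p n), ZMod.natCast_eq_natCast_iff]
  · -- Matomaki-Radziwill
    obtain ⟨h₀, hh₀⟩ := usy_mr hν hL.mr W ε hW hε
    refine ⟨h₀, fun h hh => ?_⟩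
    refine le_trans (le_of_eq ?_) (hh₀ h hh)
    refine (hPc _ (q8 W h (ε * h))).trans ?_
    congr 1
    ext n
    change ε * h ≤ |∑ y ∈ range h, DD Q ((sh Q)^[W * y] (ptO Q l n))| ↔ _
    simp only [q3]
    exact Iff.rfl

end Pool.Agent.H41.UG
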