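import Pool.Agent.H24.UG.T9
import Pool.Agent.H77.AG.ENS

/-!
UNIFORM LOCAL GAP (`MP_c59857_nt`), row UNS: entropy decrement for the modulus `Q w!`, all signs.
-/

set_option autoImplicit false

open Filter Topology Finset
open scoped Nat

namespace Pool.Agent.H41.UG

open Pool.Agent.H24.UG
open Pool.Agent.H24.MR (lam FinAddInv)
open Pool.Agent.H24.T2 (Pset rel Dec)
open Pool.Agent.H59.MR (fai_mono lam_or class_split)
open Pool.Agent.H77.AG (en_class)

variable {ν : Set ℕ → ℝ}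

theorem uns_abs {s : ℕ → ℝ} (hs : Sgn s) (p : ℕ) : |s p| ≤ 1 := by
  rcases hs p with h | h | h <;> rw [h] <;> norm_num

theorem uns_good {k Q w i m : ℕ} (β : Fin k → ℕ) (hQ : 0 < Q) (hν : FinAddInv ν)
    (hD : ∀ u ∈ range (Q * w !), Dec β ν lam (Q * w !) u
      (1 / (((i : ℝ) + 1) * (Q * w ! : ℕ))) m) :
    DecS Q β w i ν m := by
  classical
  set W : ℕ := Q * w ! with hW
  have hW0 : 0 < W := Nat.mul_pos hQ (Nat.factorial_pos w)
  have hQr : (0 : ℝ) < Q := by exact_mod_cast hQ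
  have hWr : (0 : ℝ) < W := by exact_mod_cast hW0
  have hir : (0 : ℝ) < (i : ℝ) + 1 := by positivity
  set θ : ℝ := 1 / (((i : ℝ) + 1) * (W : ℕ)) with hθ
  have hθ0 : 0 < θ := by positivity
  have hW1 : (1 : ℝ) ≤ W := by exact_mod_cast hW0
  have hθ1 : θ ≤ 1 / ((i : ℝ) + 1) := by
    rw [hθ]
    apply one_div_le_one_div_of_le hir
    nlinarith
  intro c s hs
  have hs0 : ∀ p, 0 ≤ |s p| := fun p => abs_nonneg _
  choose! X hX1 hX2 using hD
  set Y : Finset ℕ := (range W).biUnion X with hY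
  have hYc : (Y.card : ℝ) ≤ 1 / ((i : ℝ) + 1) * (Pset W m).card := by
    have h1 : (Y.card : ℝ) ≤ ∑ u ∈ range W, ((X u).card : ℝ) := by
      exact_mod_cast card_biUnion_le
    have h2 : ∑ u ∈ range W, ((X u).card : ℝ) ≤ ∑ _u ∈ range W, θ * (Pset W m).card :=
      sum_le_sum hX1
    rw [sum_const, card_range, nsmul_eq_mul] at h2
    refine h1.trans (h2.trans (le_of_eq ?_))
    rw [hθ]
    field_simp
  have hbound : ∀ p ∈ Pset W m, |s p| * ν {y | y ≡ c [MOD Q] ∧ rel β lam p y ≠ s p} ≤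
      10 * (|s p| * (p * ν {y | y ≡ c [MOD Q] ∧ p ∣ y ∧ rel β lam p y ≠ s p})) +
        (θ / Q + (if p ∈ Y then 1 / (Q : ℝ) else 0)) := by
    intro p hp
    have hnn : 0 ≤ ν {y | y ≡ c [MOD Q] ∧ rel β lam p y ≠ s p} := hν.nonneg _
    have hnn2 : 0 ≤ (p : ℝ) * ν {y | y ≡ c [MOD Q] ∧ p ∣ y ∧ rel β lam p y ≠ s p} :=
      mul_nonneg (Nat.cast_nonneg p) (hν.nonneg _)
    split_ifs with hpY
    · have h1 : ν {y | y ≡ c [MOD Q] ∧ rel β lam p y ≠ s p} ≤ 1 / Q := by
        rw [← en_class hν Q c hQ]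
        exact fai_mono hν fun y hy => hy.1
      have h2 : 0 ≤ θ / Q := by positivity
      have h3 : |s p| * ν {y | y ≡ c [MOD Q] ∧ rel β lam p y ≠ s p} ≤
          1 * ν {y | y ≡ c [MOD Q] ∧ rel β lam p y ≠ s p} :=
        mul_le_mul_of_nonneg_right (uns_abs hs p) hnn
      have h4 : 0 ≤ 10 * (|s p| *
          (p * ν {y | y ≡ c [MOD Q] ∧ p ∣ y ∧ rel β lam p y ≠ s p})) :=
        mul_nonneg (by norm_num) (mul_nonneg (hs0 p) hnn2)
      linarith
    · rw [add_zero]
      have hsp : ∀ A : Set ℕ, ν {z | z ≡ c [MOD Q] ∧ z ∈ A} =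
          ∑ j ∈ range (w !), ν {z | z ≡ c % Q + Q * j [MOD W] ∧ z ∈ A} := fun A =>
        (class_split hν hQ (Nat.factorial_pos w) c A).symm
      have h1 := hsp {y | rel β lam p y ≠ s p}
      have h2 := hsp {y | p ∣ y ∧ rel β lam p y ≠ s p}
      simp only [Set.mem_ofPred_eq] at h1 h2
      have h3 : ∀ j ∈ range (w !), ν {z | z ≡ c % Q + Q * j [MOD W] ∧ rel β lam p z ≠ s p} ≤
          10 * (p * ν {z | z ≡ c % Q + Q * j [MOD W] ∧ p ∣ z ∧ rel β lam p z ≠ s p}) +
            θ / W := by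
        intro j hj
        rw [mem_range] at hj
        have hu : c % Q + Q * j ∈ range W := by
          rw [mem_range]
          calc c % Q + Q * j < Q + Q * j := Nat.add_lt_add_right (Nat.mod_lt _ hQ) _
            _ = Q * (j + 1) := by ring
            _ ≤ W := Nat.mul_le_mul_left Q hj
        refine hX2 _ hu p hp (fun hpX => hpY ?_) (s p)
        rw [hY, mem_biUnion]
        exact ⟨_, hu, hpX⟩
      have h7 : (w ! : ℝ) * (θ / W) = θ / Q := by
        have hw : (0 : ℝ) < (w ! : ℝ) := by exact_mod_cast Nat.factorial_pos w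
        rw [hW]
        push_cast
        field_simp
      have h8 : ν {y | y ≡ c [MOD Q] ∧ rel β lam p y ≠ s p} ≤
          10 * (p * ν {y | y ≡ c [MOD Q] ∧ p ∣ y ∧ rel β lam p y ≠ s p}) + θ / Q := by
        rw [h1, h2]
        refine (sum_le_sum h3).trans ?_
        rw [sum_add_distrib, sum_const, card_range, nsmul_eq_mul, ← mul_sum, ← mul_sum, h7]
      have h9 : |s p| * ν {y | y ≡ c [MOD Q] ∧ rel β lam p y ≠ s p} ≤
          |s p| * (10 * (p * ν {y | y ≡ c [MOD Q] ∧ p ∣ y ∧ rel β lam p y ≠ s p}) + θ / Q) :=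
        mul_le_mul_of_nonneg_left h8 (hs0 p)
      have h10 : |s p| * (θ / Q) ≤ 1 * (θ / Q) :=
        mul_le_mul_of_nonneg_right (uns_abs hs p) (by positivity)
      have h11 : |s p| * (10 * (p * ν {y | y ≡ c [MOD Q] ∧ p ∣ y ∧ rel β lam p y ≠ s p}) +
          θ / Q) = 10 * (|s p| *
            (p * ν {y | y ≡ c [MOD Q] ∧ p ∣ y ∧ rel β lam p y ≠ s p})) + |s p| * (θ / Q) := by
        ring
      linarith
  refine (sum_le_sum hbound).trans ?_
  rw [sum_add_distrib, sum_add_distrib, sum_const, nsmul_eq_mul, ← mul_sum]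
  have h1 : ∑ p ∈ Pset W m, (if p ∈ Y then 1 / (Q : ℝ) else 0) ≤ Y.card * (1 / Q) := by
    rw [← sum_filter, sum_const, nsmul_eq_mul]
    refine mul_le_mul_of_nonneg_right ?_ (by positivity)
    have h2 : ((Pset W m).filter fun p => p ∈ Y).card ≤ Y.card :=
      card_le_card fun p hp => (mem_filter.1 hp).2
    exact_mod_cast h2
  have h2 : (Y.card : ℝ) * (1 / Q) ≤ 1 / ((i : ℝ) + 1) * (Pset W m).card * (1 / Q) :=
    mul_le_mul_of_nonneg_right hYc (by positivity)
  have h3 : ((Pset W m).card : ℝ) * (θ / Q) ≤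
      (Pset W m).card * ((1 / ((i : ℝ) + 1)) / Q) := by gcongr
  have h4 : ((Pset W m).card : ℝ) * ((1 / ((i : ℝ) + 1)) / Q) +
      1 / ((i : ℝ) + 1) * (Pset W m).card * (1 / Q) =
        2 / (((i : ℝ) + 1) * Q) * (Pset W m).card := by
    field_simp
    ring
  linarith

/-- **Row UNS.** -/
theorem pf_UNS : T_UNS := by
  classical
  intro Q k β ρ w i hQ hρ
  obtain ⟨c₀, hc₀, hEN⟩ := Pool.Agent.H18.T2.en2
  have hW0 : 0 < Q * w ! := Nat.mul_pos hQ (Nat.factorial_pos w)
  have hWr : (0 : ℝ) < (Q * w ! : ℕ) := by exact_mod_cast hW0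
  obtain ⟨M, wt, hM, hwt1, hDec⟩ := hEN (Q * w !) k β (1 / (((i : ℝ) + 1) * (Q * w ! : ℕ)))
    (ρ / (Q * w ! : ℕ)) (max i 1) hW0 (by positivity) (by positivity)
  have hne : ∀ m ∈ M, (Pset (Q * w !) m).Nonempty := by
    intro m hm
    obtain ⟨h1, h2, -⟩ := hM m hm
    have hm1 : 0 < m := (le_max_right _ _).trans h1
    have hmr : (0 : ℝ) < m := by exact_mod_cast hm1
    have ht : (0 : ℝ) < (Nat.totient (Q * w !) : ℝ) := by exact_mod_cast Nat.totient_pos.2 hW0
    have h3 : (0 : ℝ) < ((Pset (Q * w !) m).card : ℝ) := lt_of_lt_of_le (by positivity) h2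
    rw [← card_pos]
    exact_mod_cast h3
  refine ⟨M, wt, fun m hm => ⟨(le_max_left _ _).trans (hM m hm).1, hne m hm, (hM m hm).2.2⟩,
    hwt1, ?_⟩
  intro ν hν B hBM hB
  by_contra hcon
  push Not at hcon
  obtain ⟨m, hmB, hmDec⟩ : ∃ m ∈ B, ∀ u ∈ range (Q * w !), Dec β ν lam (Q * w !) u
      (1 / (((i : ℝ) + 1) * (Q * w ! : ℕ))) m := by
    by_contra hno
    push Not at hno
    have h1 : ∑ m ∈ B, wt m ≤ ∑ u ∈ range (Q * w !),
        ∑ m ∈ M.filter (fun m => ¬ Dec β ν lam (Q * w !) u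
          (1 / (((i : ℝ) + 1) * (Q * w ! : ℕ))) m), wt m := by
      calc ∑ m ∈ B, wt m ≤ ∑ m ∈ B, ∑ u ∈ range (Q * w !),
            (if ¬ Dec β ν lam (Q * w !) u
              (1 / (((i : ℝ) + 1) * (Q * w ! : ℕ))) m then wt m else 0) := by
            refine sum_le_sum fun m hm => ?_
            obtain ⟨u, hu, hnu⟩ := hno m hm
            have h2 := single_le_sum
              (f := fun u => if ¬ Dec β ν lam (Q * w !) u
                (1 / (((i : ℝ) + 1) * (Q * w ! : ℕ))) m then wt m else 0)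
              (fun u _ => by split_ifs <;> first | exact (hM m (hBM hm)).2.2 | exact le_refl _) hu
            simp only [if_pos hnu] at h2
            exact h2
        _ ≤ ∑ m ∈ M, ∑ u ∈ range (Q * w !),
            (if ¬ Dec β ν lam (Q * w !) u
              (1 / (((i : ℝ) + 1) * (Q * w ! : ℕ))) m then wt m else 0) := by
            refine sum_le_sum_of_subset_of_nonneg hBM fun m hm _ => ?_
            refine sum_nonneg fun u _ => ?_
            split_ifs <;> first | exact (hM m hm).2.2 | exact le_refl _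
        _ = _ := by
            rw [sum_comm]
            refine sum_congr rfl fun u _ => ?_
            rw [sum_filter]
    have h2 : ∀ u ∈ range (Q * w !),
        ∑ m ∈ M.filter (fun m => ¬ Dec β ν lam (Q * w !) u
          (1 / (((i : ℝ) + 1) * (Q * w ! : ℕ))) m), wt m ≤ ρ / (Q * w ! : ℕ) := by
      intro u _
      exact hDec ν hν lam lam_or u _ (filter_subset _ _)
        (fun m hm => (mem_filter.1 hm).2)
    have h3 := h1.trans (sum_le_sum h2)
    rw [sum_const, card_range, nsmul_eq_mul, mul_div_cancel₀ _ hWr.ne'] at h3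
    linarith
  exact hB m hmB (uns_good β hQ hν hmDec)

end Pool.Agent.H41.UG
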